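import Mathlib

set_option autoImplicit false

namespace Pool.Agent.Helper479.Bond.Check

/-- A dominating set (bit mask `D`) with its critical edges: `s1` is a mask of edges, `qs` a list
of masks of edges; deleting a set `T` of edges does no harm if `T` misses `s1` and contains no
member of `qs`. -/
structure DD where
  D : ℕ
  s1 : ℕ
  qs : List ℕ

inductive BT where
  | leaf (d : DD) : BT
  | node (l r : BT) : BT

def BT.get : BT → ℕ → DD
  | .leaf d, _ => d
  | .node l r, i => match Nat.beq (Nat.mod i 2) 0 with
    | true => l.get (Nat.div i 2)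
    | false => r.get (Nat.div i 2)

def BT.all (P : DD → Bool) : BT → Bool
  | .leaf d => P d
  | .node l r => l.all P && r.all P

theorem BT.all_get (P : DD → Bool) (t : BT) (h : t.all P = true) (i : ℕ) :
    P (t.get i) = true := by
  induction t generalizing i with
  | leaf d => exact h
  | node l r ihl ihr =>
    simp only [BT.all, Bool.and_eq_true] at h
    unfold BT.get
    split
    · exact ihl h.1 _
    · exact ihr h.2 _

def aliveQ (X : ℕ) : List ℕ → Bool
  | [] => true
  | q :: qs => match Nat.beq (Nat.land q X) q with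
    | true => false
    | false => aliveQ X qs

def alive (d : DD) (X : ℕ) : Bool :=
  match Nat.beq (Nat.land d.s1 X) 0 with
  | true => aliveQ X d.qs
  | false => false

/-- New edges forced by `q` beyond `X`. -/
def rest (q X : ℕ) : ℕ := Nat.xor q (Nat.land q X)

def single (z : ℕ) : Bool := Nat.beq (Nat.land z (Nat.sub z 1)) 0

def kq (X : ℕ) : List ℕ → ℕ
  | [] => 0
  | q :: qs => match single (rest q X) with
    | true => Nat.lor (rest q X) (kq X qs)
    | false => kq X qs

def kset (d : DD) (X : ℕ) : ℕ := Nat.lor d.s1 (kq X d.qs)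

variable {σ : Type}

def singles (g : ℕ → ℕ → σ → Option σ) (X k : ℕ) : ℕ → ℕ → σ → Option (ℕ × σ)
  | 0, F, s => some (F, s)
  | e + 1, F, s => match Nat.testBit k e with
    | true => match g (Nat.lor X (Nat.shiftLeft 1 e)) F s with
      | none => none
      | some s' => singles g X k e (Nat.lor F (Nat.shiftLeft 1 e)) s'
    | false => singles g X k e F s

def double (z : ℕ) : Bool := single (Nat.land z (Nat.sub z 1))

def dbls (g2 g3 : ℕ → ℕ → σ → Option σ) (X F : ℕ) : List ℕ → σ → Option σ
  | [], s => some s
  | q :: qs, s => match Nat.beq (Nat.land (rest q X) F) 0 with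
    | false => dbls g2 g3 X F qs s
    | true => match single (rest q X) with
      | true => dbls g2 g3 X F qs s
      | false => match double (rest q X) with
        | true => match g2 (Nat.lor X q) F s with
          | none => none
          | some s' => dbls g2 g3 X F qs s'
        | false => match g3 (Nat.lor X q) F s with
          | none => none
          | some s' => dbls g2 g3 X F qs s'

def node (g1 g2 g3 : ℕ → ℕ → σ → Option σ) (d : DD) (X F : ℕ) (s : σ) : Option σ :=
  match alive d X with
  | false => none
  | true => match singles g1 X (Nat.xor (Nat.lor (kset d X) F) F) 60 F s with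
    | none => none
    | some (F', s') => dbls g2 g3 X F' d.qs s'

def one (tab : BT) (X : ℕ) : ℕ → ℕ → ℕ → Option ℕ
  | 0, _, _ => none
  | n + 1, I, s => match Nat.beq I 0 with
    | true => some s
    | false => match alive (tab.get (Nat.mod s 256)) X with
      | false => none
      | true => one tab X n (Nat.land I (kset (tab.get (Nat.mod s 256)) X)) (Nat.div s 256)

def goN0 (tab : BT) (X _F s : ℕ) : Option ℕ :=
  match alive (tab.get (Nat.mod s 256)) X with
  | false => none
  | true => some (Nat.div s 256)

def goN1 (tab : BT) (X F s : ℕ) : Option ℕ :=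
  match alive (tab.get (Nat.mod s 256)) X with
  | false => none
  | true => one tab X 60 (Nat.xor (Nat.lor (kset (tab.get (Nat.mod s 256)) X) F) F)
      (Nat.div s 256)

def goN2 (tab : BT) (X F s : ℕ) : Option ℕ :=
  node (goN1 tab) (goN0 tab) (fun _ _ s => some s) (tab.get (Nat.mod s 256)) X F (Nat.div s 256)

def lift (g : ℕ → ℕ → ℕ → Option ℕ) (X F : ℕ) : List ℕ → Option (List ℕ)
  | [] => none
  | h :: t => match g X F h with
    | none => none
    | some _ => some t

def up (tab : BT) (g1 g2 g3 : ℕ → ℕ → List ℕ → Option (List ℕ)) (X F : ℕ) :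
    List ℕ → Option (List ℕ)
  | [] => none
  | h :: t => node g1 g2 g3 (tab.get h) X F t

def goL0 (tab : BT) : ℕ → ℕ → List ℕ → Option (List ℕ) := lift (goN0 tab)
def goL1 (tab : BT) : ℕ → ℕ → List ℕ → Option (List ℕ) := lift (goN1 tab)
def goL2 (tab : BT) : ℕ → ℕ → List ℕ → Option (List ℕ) := lift (goN2 tab)
def goL3 (tab : BT) : ℕ → ℕ → List ℕ → Option (List ℕ) := up tab (goL2 tab) (goL1 tab) (goL0 tab)
def goL4 (tab : BT) : ℕ → ℕ → List ℕ → Option (List ℕ) := up tab (goL3 tab) (goL2 tab) (goL1 tab)
def goL5 (tab : BT) : ℕ → ℕ → List ℕ → Option (List ℕ) := up tab (goL4 tab) (goL3 tab) (goL2 tab)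

/-! ### Soundness -/

def aliveT (d : DD) (T : Finset ℕ) : Prop :=
  (∀ i ∈ T, d.s1.testBit i = false) ∧ ∀ q ∈ d.qs, ∃ i, q.testBit i = true ∧ i ∉ T

def Good (tab : BT) (T : Finset ℕ) : Prop := ∃ i, aliveT (tab.get i) T

/-- `T` contains `X`, avoids `F`, lies below 60 and has at most `r` further elements. -/
structure Inv (T : Finset ℕ) (X F r : ℕ) : Prop where
  lt : ∀ i ∈ T, i < 60
  sub : ∀ i, X.testBit i = true → i ∈ T
  avoid : ∀ i ∈ T, F.testBit i = false
  card : (T.filter (fun i => X.testBit i = false)).card ≤ r

theorem testBit_lor (a b i : ℕ) : (Nat.lor a b).testBit i = (a.testBit i || b.testBit i) :=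
  Nat.testBit_or a b i

theorem testBit_land (a b i : ℕ) : (Nat.land a b).testBit i = (a.testBit i && b.testBit i) :=
  Nat.testBit_and a b i

theorem testBit_xor' (a b i : ℕ) : (Nat.xor a b).testBit i = (a.testBit i ^^ b.testBit i) :=
  Nat.testBit_xor a b i

theorem testBit_shift (e i : ℕ) : (Nat.shiftLeft 1 e).testBit i = decide (i = e) := by
  have : Nat.shiftLeft 1 e = 2 ^ e := by
    show 1 <<< e = 2 ^ e
    rw [Nat.shiftLeft_eq, one_mul]
  rw [this, Nat.testBit_two_pow]
  simp only [eq_comm]

theorem testBit_rest (q X i : ℕ) : (rest q X).testBit i = (q.testBit i && !X.testBit i) := by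
  unfold rest
  rw [testBit_xor', testBit_land]
  cases q.testBit i <;> cases X.testBit i <;> rfl

theorem testBit_diff (k F i : ℕ) :
    (Nat.xor (Nat.lor k F) F).testBit i = (k.testBit i && !F.testBit i) := by
  rw [testBit_xor', testBit_lor]
  cases k.testBit i <;> cases F.testBit i <;> rfl

theorem beq_land_zero {a b : ℕ} (h : Nat.beq (Nat.land a b) 0 = true) (i : ℕ) :
    (a.testBit i && b.testBit i) = false := by
  have h1 : Nat.land a b = 0 := Nat.eq_of_beq_eq_true h
  rw [← testBit_land, h1, Nat.zero_testBit]

theorem beq_land_nonzero {a b : ℕ} (h : Nat.beq (Nat.land a b) 0 = false) :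
    ∃ i, a.testBit i = true ∧ b.testBit i = true := by
  have h1 : Nat.land a b ≠ 0 := Nat.ne_of_beq_eq_false h
  by_contra hcon
  push Not at hcon
  apply h1
  apply Nat.eq_of_testBit_eq
  intro i
  rw [testBit_land, Nat.zero_testBit]
  cases ha : a.testBit i
  · rfl
  · have := hcon i ha
    simp only [Bool.not_eq_true] at this
    rw [this]; rfl

theorem aliveQ_spec {X : ℕ} {qs : List ℕ} (h : aliveQ X qs = true) :
    ∀ q ∈ qs, ∃ i, q.testBit i = true ∧ X.testBit i = false := by
  induction qs with
  | nil => intro q hq; simp at hq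
  | cons q qs ih =>
    unfold aliveQ at h
    split at h
    · exact absurd h (by simp)
    · rename_i hb
      intro q' hq'
      rcases List.mem_cons.mp hq' with rfl | hq'
      · by_contra hcon
        push Not at hcon
        have h1 : Nat.land q' X ≠ q' := Nat.ne_of_beq_eq_false hb
        apply h1
        apply Nat.eq_of_testBit_eq
        intro i
        rw [testBit_land]
        cases hq : q'.testBit i
        · rfl
        · have := hcon i hq
          simp only [Bool.not_eq_false] at this
          rw [this]; rfl
      · exact ih h q' hq'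

theorem alive_spec {d : DD} {X : ℕ} (h : alive d X = true) :
    (∀ i, d.s1.testBit i = true → X.testBit i = false) ∧
    ∀ q ∈ d.qs, ∃ i, q.testBit i = true ∧ X.testBit i = false := by
  unfold alive at h
  split at h
  · rename_i hb
    refine ⟨fun i hi => ?_, aliveQ_spec h⟩
    have := beq_land_zero hb i
    rw [hi] at this
    simpa using this
  · exact absurd h (by simp)

theorem single_of_unique {z i : ℕ} (hi : z.testBit i = true)
    (hu : ∀ j, z.testBit j = true → j = i) : single z = true := by
  have hz : z = 2 ^ i := by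
    apply Nat.eq_of_testBit_eq
    intro j
    rw [Nat.testBit_two_pow]
    by_cases hj : j = i
    · subst hj; simp [hi]
    · have : z.testBit j = false := by
        by_contra hc
        exact hj (hu j (by simpa using hc))
      rw [this]
      simp [Ne.symm hj]
  unfold single
  have : Nat.land z (Nat.sub z 1) = 0 := by
    show z &&& (z - 1) = 0
    rw [hz, Nat.and_two_pow_sub_one_eq_mod, Nat.mod_self]
  rw [this]
  rfl

theorem two_of_not_single {z i : ℕ} (h : single z = false) (hi : z.testBit i = true) :
    ∃ j, j ≠ i ∧ z.testBit j = true := by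
  by_contra hcon
  push Not at hcon
  have := single_of_unique hi (fun j hj => by
    by_contra hne
    exact hcon j hne hj)
  rw [this] at h
  exact absurd h (by simp)

theorem kq_mem {X : ℕ} {qs : List ℕ} {q i : ℕ} (hq : q ∈ qs) (hs : single (rest q X) = true)
    (hi : (rest q X).testBit i = true) : (kq X qs).testBit i = true := by
  induction qs with
  | nil => simp at hq
  | cons q' qs ih =>
    unfold kq
    rcases List.mem_cons.mp hq with rfl | hq
    · rw [hs]
      simp only
      rw [testBit_lor, hi, Bool.true_or]
    · split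
      · rw [testBit_lor, ih hq, Bool.or_true]
      · exact ih hq

theorem kq_sub {X : ℕ} {qs : List ℕ} {i : ℕ} (h : (kq X qs).testBit i = true) :
    X.testBit i = false := by
  induction qs with
  | nil => simp [kq] at h
  | cons q' qs ih =>
    unfold kq at h
    split at h
    · rw [testBit_lor, Bool.or_eq_true] at h
      rcases h with h | h
      · rw [testBit_rest, Bool.and_eq_true] at h
        simpa using h.2
      · exact ih h
    · exact ih h

theorem kset_sub {d : DD} {X i : ℕ} (ha : alive d X = true) (h : (kset d X).testBit i = true) :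
    X.testBit i = false := by
  unfold kset at h
  rw [testBit_lor, Bool.or_eq_true] at h
  rcases h with h | h
  · exact (alive_spec ha).1 i h
  · exact kq_sub h

/-- If `T` spoils `d` then either `T` meets `kset d X` or `T` contains a mask from `d.qs` with at
least two new edges. -/
theorem spoil {d : DD} {X : ℕ} {T : Finset ℕ} (ha : alive d X = true) (hT : ¬ aliveT d T) :
    (∃ i ∈ T, (kset d X).testBit i = true) ∨
    (∃ q ∈ d.qs, (∀ i, q.testBit i = true → i ∈ T) ∧ single (rest q X) = false) := by
  by_cases h1 : ∃ i ∈ T, d.s1.testBit i = true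
  · obtain ⟨i, hi, hb⟩ := h1
    left
    exact ⟨i, hi, by unfold kset; rw [testBit_lor, hb, Bool.true_or]⟩
  · have h2 : ∃ q ∈ d.qs, ∀ i, q.testBit i = true → i ∈ T := by
      by_contra hcon
      push Not at hcon
      apply hT
      refine ⟨fun i hi => ?_, fun q hq => ?_⟩
      · by_contra hb
        exact h1 ⟨i, hi, by simpa using hb⟩
      · obtain ⟨i, h3, h4⟩ := hcon q hq
        exact ⟨i, h3, h4⟩
    obtain ⟨q, hq, hqT⟩ := h2
    cases hs : single (rest q X)
    · right; exact ⟨q, hq, hqT, hs⟩
    · left
      obtain ⟨i, hi, hX⟩ := (alive_spec ha).2 q hq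
      have hr : (rest q X).testBit i = true := by rw [testBit_rest, hi, hX]; rfl
      exact ⟨i, hqT i hi, by unfold kset; rw [testBit_lor, kq_mem hq hs hr, Bool.or_true]⟩

def Sound (tab : BT) (g : ℕ → ℕ → σ → Option σ) (r : ℕ) : Prop :=
  ∀ X F s s', g X F s = some s' → ∀ T, Inv T X F r → Good tab T

theorem Inv.add_one {T : Finset ℕ} {X F r e : ℕ} (h : Inv T X F (r + 1)) (he : e ∈ T)
    (hX : X.testBit e = false) : Inv T (Nat.lor X (Nat.shiftLeft 1 e)) F r where
  lt := h.lt
  sub := by
    intro i hi
    rw [testBit_lor, testBit_shift, Bool.or_eq_true, decide_eq_true_eq] at hi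
    rcases hi with hi | rfl
    · exact h.sub i hi
    · exact he
  avoid := h.avoid
  card := by
    have h1 : T.filter (fun i => (Nat.lor X (Nat.shiftLeft 1 e)).testBit i = false) ⊆
        (T.filter (fun i => X.testBit i = false)).erase e := by
      intro i hi
      rw [Finset.mem_filter, testBit_lor, testBit_shift, Bool.or_eq_false_iff,
        decide_eq_false_iff_not] at hi
      rw [Finset.mem_erase, Finset.mem_filter]
      exact ⟨hi.2.2, hi.1, hi.2.1⟩
    have h2 : e ∈ T.filter (fun i => X.testBit i = false) := Finset.mem_filter.mpr ⟨he, hX⟩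
    have h3 := Finset.card_le_card h1
    rw [Finset.card_erase_of_mem h2] at h3
    have := h.card
    omega

theorem Inv.add_two {T : Finset ℕ} {X F r q : ℕ} (h : Inv T X F (r + 2))
    (hq : ∀ i, q.testBit i = true → i ∈ T) (hs : single (rest q X) = false)
    (hne : ∃ i, q.testBit i = true ∧ X.testBit i = false) : Inv T (Nat.lor X q) F r where
  lt := h.lt
  sub := by
    intro i hi
    rw [testBit_lor, Bool.or_eq_true] at hi
    rcases hi with hi | hi
    · exact h.sub i hi
    · exact hq i hi
  avoid := h.avoid
  card := by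
    obtain ⟨i, hi, hXi⟩ := hne
    have hr : (rest q X).testBit i = true := by rw [testBit_rest, hi, hXi]; rfl
    obtain ⟨j, hji, hj⟩ := two_of_not_single hs hr
    rw [testBit_rest, Bool.and_eq_true] at hj
    have hXj : X.testBit j = false := by simpa using hj.2
    have h1 : T.filter (fun i => (Nat.lor X q).testBit i = false) ⊆
        ((T.filter (fun i => X.testBit i = false)).erase i).erase j := by
      intro l hl
      rw [Finset.mem_filter, testBit_lor, Bool.or_eq_false_iff] at hl
      rw [Finset.mem_erase, Finset.mem_erase, Finset.mem_filter]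
      refine ⟨?_, ?_, hl.1, hl.2.1⟩
      · rintro rfl; rw [hj.1] at hl; exact absurd hl.2.2 (by simp)
      · rintro rfl; rw [hi] at hl; exact absurd hl.2.2 (by simp)
    have h2 : i ∈ T.filter (fun i => X.testBit i = false) := Finset.mem_filter.mpr ⟨hq i hi, hXi⟩
    have h3 : j ∈ (T.filter (fun i => X.testBit i = false)).erase i :=
      Finset.mem_erase.mpr ⟨hji, Finset.mem_filter.mpr ⟨hq j hj.1, hXj⟩⟩
    have h4 := Finset.card_le_card h1
    rw [Finset.card_erase_of_mem h3, Finset.card_erase_of_mem h2] at h4
    have := h.card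
    omega

def SoundS (tab : BT) (g : ℕ → ℕ → σ → Option σ) (r : ℕ) : Prop :=
  ∀ X F s s', g X F s = some s' → ∀ T r', r' + 1 ≤ r → Inv T X F r' → Good tab T

theorem Sound.toS {tab : BT} {g : ℕ → ℕ → σ → Option σ} {r : ℕ} (h : Sound tab g r) :
    SoundS tab g (r + 1) := by
  intro X F s s' hs T r' hr hT
  exact h X F s s' hs T ⟨hT.lt, hT.sub, hT.avoid, hT.card.trans (by omega)⟩

theorem three_of_not_double {z : ℕ} (h : double z = false) :
    ∃ i j l, i ≠ j ∧ i ≠ l ∧ j ≠ l ∧ z.testBit i = true ∧ z.testBit j = true ∧
      z.testBit l = true := by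
  unfold double at h
  have hw : Nat.land z (Nat.sub z 1) ≠ 0 := by
    intro h0
    rw [h0] at h
    exact absurd h (by decide)
  obtain ⟨i, hi⟩ := Nat.exists_testBit_of_ne_zero hw
  obtain ⟨j, hji, hj⟩ := two_of_not_single h hi
  have hz : z ≠ 0 := by
    rintro rfl
    exact hw rfl
  have hl : ∃ l, z.testBit l = true ∧ (Nat.land z (Nat.sub z 1)).testBit l = false := by
    by_contra hcon
    push Not at hcon
    have he : Nat.land z (Nat.sub z 1) = z := by
      apply Nat.eq_of_testBit_eq
      intro l
      cases hzl : z.testBit l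
      · rw [testBit_land, hzl]; rfl
      · have := hcon l hzl
        simpa using this
    have h1 : z &&& (z - 1) ≤ z - 1 := Nat.and_le_right
    have h2 : z &&& (z - 1) = z := he
    omega
  obtain ⟨l, hl1, hl2⟩ := hl
  have hi' := hi
  have hj' := hj
  rw [testBit_land, Bool.and_eq_true] at hi' hj'
  refine ⟨i, j, l, hji.symm, ?_, ?_, hi'.1, hj'.1, hl1⟩
  · rintro rfl; rw [hi] at hl2; exact absurd hl2 (by simp)
  · rintro rfl; rw [hj] at hl2; exact absurd hl2 (by simp)

theorem Inv.add_three {T : Finset ℕ} {X F r q : ℕ} (h : Inv T X F (r + 2))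
    (hq : ∀ i, q.testBit i = true → i ∈ T) (hs : double (rest q X) = false) :
    ∃ r', r' + 1 ≤ r ∧ Inv T (Nat.lor X q) F r' := by
  refine ⟨(T.filter (fun i => (Nat.lor X q).testBit i = false)).card, ?_,
    ⟨h.lt, ?_, h.avoid, le_rfl⟩⟩
  · obtain ⟨i, j, l, hij, hil, hjl, hi, hj, hl⟩ := three_of_not_double hs
    rw [testBit_rest, Bool.and_eq_true] at hi hj hl
    have hXi : X.testBit i = false := by simpa using hi.2
    have hXj : X.testBit j = false := by simpa using hj.2
    have hXl : X.testBit l = false := by simpa using hl.2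
    have h1 : T.filter (fun i => (Nat.lor X q).testBit i = false) ⊆
        (((T.filter (fun i => X.testBit i = false)).erase i).erase j).erase l := by
      intro m hm
      rw [Finset.mem_filter, testBit_lor, Bool.or_eq_false_iff] at hm
      rw [Finset.mem_erase, Finset.mem_erase, Finset.mem_erase, Finset.mem_filter]
      refine ⟨?_, ?_, ?_, hm.1, hm.2.1⟩
      · rintro rfl; rw [hl.1] at hm; exact absurd hm.2.2 (by simp)
      · rintro rfl; rw [hj.1] at hm; exact absurd hm.2.2 (by simp)
      · rintro rfl; rw [hi.1] at hm; exact absurd hm.2.2 (by simp)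
    have h2 : i ∈ T.filter (fun i => X.testBit i = false) :=
      Finset.mem_filter.mpr ⟨hq i hi.1, hXi⟩
    have h3 : j ∈ (T.filter (fun i => X.testBit i = false)).erase i :=
      Finset.mem_erase.mpr ⟨hij.symm, Finset.mem_filter.mpr ⟨hq j hj.1, hXj⟩⟩
    have h4 : l ∈ ((T.filter (fun i => X.testBit i = false)).erase i).erase j :=
      Finset.mem_erase.mpr ⟨hjl.symm, Finset.mem_erase.mpr ⟨hil.symm,
        Finset.mem_filter.mpr ⟨hq l hl.1, hXl⟩⟩⟩
    have h5 := Finset.card_le_card h1
    rw [Finset.card_erase_of_mem h4, Finset.card_erase_of_mem h3,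
      Finset.card_erase_of_mem h2] at h5
    have h6 := Finset.card_pos.mpr ⟨l, h4⟩
    rw [Finset.card_erase_of_mem h3, Finset.card_erase_of_mem h2] at h6
    have := h.card
    omega
  · intro i hi
    rw [testBit_lor, Bool.or_eq_true] at hi
    rcases hi with hi | hi
    · exact h.sub i hi
    · exact hq i hi

theorem singles_sound {tab : BT} {g : ℕ → ℕ → σ → Option σ} {r : ℕ} (hg : Sound tab g (r + 1))
    {X k : ℕ} (hk : ∀ i, k.testBit i = true → X.testBit i = false) (n : ℕ) {F : ℕ} {s : σ}
    {F' : ℕ} {s' : σ} (h : singles g X k n F s = some (F', s')) {T : Finset ℕ}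
    (hT : Inv T X F (r + 2)) :
    Good tab T ∨ (Inv T X F' (r + 2) ∧ ∀ i ∈ T, i < n → k.testBit i = false) := by
  induction n generalizing F s with
  | zero =>
    simp only [singles, Option.some.injEq, Prod.mk.injEq] at h
    right
    refine ⟨h.1 ▸ hT, ?_⟩
    intro i _ hi; omega
  | succ n ih =>
    unfold singles at h
    split at h
    · rename_i hb
      split at h
      · exact absurd h (by simp)
      · rename_i s1 hs1
        by_cases hn : n ∈ T
        · left
          exact hg _ _ _ _ hs1 T (hT.add_one hn (hk n hb))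
        · have hT' : Inv T X (Nat.lor F (Nat.shiftLeft 1 n)) (r + 2) := by
            refine ⟨hT.lt, hT.sub, ?_, hT.card⟩
            intro i hi
            rw [testBit_lor, testBit_shift, hT.avoid i hi, Bool.false_or,
              decide_eq_false_iff_not]
            rintro rfl
            exact hn hi
          rcases ih h hT' with h1 | ⟨h1, h2⟩
          · exact Or.inl h1
          · right
            refine ⟨h1, fun i hi hin => ?_⟩
            rcases Nat.lt_succ_iff_lt_or_eq.mp hin with h3 | h3
            · exact h2 i hi h3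
            · exact absurd (h3 ▸ hi) hn
    · rename_i hb
      rcases ih h hT with h1 | ⟨h1, h2⟩
      · exact Or.inl h1
      · right
        refine ⟨h1, fun i hi hin => ?_⟩
        rcases Nat.lt_succ_iff_lt_or_eq.mp hin with h3 | h3
        · exact h2 i hi h3
        · rw [h3]; exact hb

theorem dbls_sound {tab : BT} {g2 g3 : ℕ → ℕ → σ → Option σ} {r : ℕ} (hg : Sound tab g2 r)
    (hg3 : SoundS tab g3 r)
    {X F : ℕ} {qs : List ℕ} {s s' : σ} (h : dbls g2 g3 X F qs s = some s') {T : Finset ℕ}
    (hT : Inv T X F (r + 2)) (hne : ∀ q ∈ qs, ∃ i, q.testBit i = true ∧ X.testBit i = false)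
    {q : ℕ} (hq : q ∈ qs) (hqT : ∀ i, q.testBit i = true → i ∈ T)
    (hs : single (rest q X) = false) : Good tab T := by
  induction qs generalizing s with
  | nil => simp at hq
  | cons q' qs ih =>
    have hne' : ∀ q ∈ qs, ∃ i, q.testBit i = true ∧ X.testBit i = false :=
      fun q hq => hne q (List.mem_cons_of_mem _ hq)
    unfold dbls at h
    rcases List.mem_cons.mp hq with rfl | hq'
    · split at h
      · rename_i hb
        obtain ⟨i, h1, h2⟩ := beq_land_nonzero hb
        rw [testBit_rest, Bool.and_eq_true] at h1
        rw [hT.avoid i (hqT i h1.1)] at h2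
        exact absurd h2 (by simp)
      · rw [hs] at h
        simp only at h
        split at h
        · split at h
          · exact absurd h (by simp)
          · rename_i s1 hs1
            exact hg _ _ _ _ hs1 T (hT.add_two hqT hs (hne q (List.mem_cons_self)))
        · rename_i hd
          split at h
          · exact absurd h (by simp)
          · rename_i s1 hs1
            obtain ⟨r', hr', hI⟩ := hT.add_three hqT hd
            exact hg3 _ _ _ _ hs1 T r' hr' hI
    · split at h
      · exact ih h hne' hq'
      · split at h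
        · exact ih h hne' hq'
        · split at h
          · split at h
            · exact absurd h (by simp)
            · exact ih h hne' hq'
          · split at h
            · exact absurd h (by simp)
            · exact ih h hne' hq'

theorem node_sound {tab : BT} {g1 g2 g3 : ℕ → ℕ → σ → Option σ} {r : ℕ}
    (h1 : Sound tab g1 (r + 1)) (h2 : Sound tab g2 r) (h3 : SoundS tab g3 r) (i : ℕ)
    {X F : ℕ} {s s' : σ}
    (h : node g1 g2 g3 (tab.get i) X F s = some s') {T : Finset ℕ} (hT : Inv T X F (r + 2)) :
    Good tab T := by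
  unfold node at h
  split at h
  · exact absurd h (by simp)
  · rename_i ha
    split at h
    · exact absurd h (by simp)
    · rename_i F' s1 hs1
      by_cases hal : aliveT (tab.get i) T
      · exact ⟨i, hal⟩
      · have hk : ∀ j, (Nat.xor (Nat.lor (kset (tab.get i) X) F) F).testBit j = true →
            X.testBit j = false := by
          intro j hj
          rw [testBit_diff, Bool.and_eq_true] at hj
          exact kset_sub ha hj.1
        rcases singles_sound h1 hk 60 hs1 hT with hg | ⟨hT', hno⟩
        · exact hg
        · rcases spoil ha hal with ⟨j, hj, hkj⟩ | ⟨q, hq, hqT, hsq⟩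
          · have := hno j hj (hT.lt j hj)
            rw [testBit_diff, hkj, hT.avoid j hj] at this
            exact absurd this (by simp)
          · exact dbls_sound h2 h3 h hT' (alive_spec ha).2 hq hqT hsq

theorem aliveT_of_empty {d : DD} {X : ℕ} {T : Finset ℕ} (ha : alive d X = true)
    (h : ∀ i ∈ T, X.testBit i = true) : aliveT d T := by
  obtain ⟨h1, h2⟩ := alive_spec ha
  refine ⟨fun i hi => ?_, fun q hq => ?_⟩
  · by_contra hb
    have := h1 i (by simpa using hb)
    rw [h i hi] at this
    exact absurd this (by simp)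
  · obtain ⟨i, hi, hX⟩ := h2 q hq
    refine ⟨i, hi, fun hT => ?_⟩
    rw [h i hT] at hX
    exact absurd hX (by simp)

theorem spoil_one {d : DD} {X e : ℕ} {T : Finset ℕ} (ha : alive d X = true)
    (hT : ¬ aliveT d T) (he : ∀ i ∈ T, X.testBit i = false → i = e) :
    (kset d X).testBit e = true := by
  rcases spoil ha hT with ⟨i, hi, hk⟩ | ⟨q, hq, hqT, hs⟩
  · rw [← he i hi (kset_sub ha hk)]; exact hk
  · obtain ⟨i, hi, hX⟩ := (alive_spec ha).2 q hq
    have hr : (rest q X).testBit i = true := by rw [testBit_rest, hi, hX]; rfl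
    obtain ⟨j, hji, hj⟩ := two_of_not_single hs hr
    rw [testBit_rest, Bool.and_eq_true] at hj
    have e1 := he i (hqT i hi) hX
    have e2 := he j (hqT j hj.1) (by simpa using hj.2)
    exact absurd (e2.trans e1.symm) hji

theorem one_sound {tab : BT} {X e : ℕ} {T : Finset ℕ}
    (he : ∀ i ∈ T, X.testBit i = false → i = e) (n : ℕ) {I s s' : ℕ}
    (h : one tab X n I s = some s') (hI : I.testBit e = true) : Good tab T := by
  induction n generalizing I s with
  | zero => simp [one] at h
  | succ n ih =>
    unfold one at h
    split at h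
    · rename_i hb
      have : I = 0 := Nat.eq_of_beq_eq_true hb
      rw [this, Nat.zero_testBit] at hI
      exact absurd hI (by simp)
    · split at h
      · exact absurd h (by simp)
      · rename_i ha
        by_cases hal : aliveT (tab.get (Nat.mod s 256)) T
        · exact ⟨_, hal⟩
        · exact ih h (by rw [testBit_land, hI, spoil_one ha hal he]; rfl)

theorem goN0_sound (tab : BT) : Sound tab (goN0 tab) 0 := by
  intro X F s s' h T hT
  unfold goN0 at h
  split at h
  · exact absurd h (by simp)
  · rename_i ha
    refine ⟨_, aliveT_of_empty ha ?_⟩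
    intro i hi
    by_contra hb
    have h1 : i ∈ T.filter (fun i => X.testBit i = false) :=
      Finset.mem_filter.mpr ⟨hi, by simpa using hb⟩
    have := Finset.card_pos.mpr ⟨i, h1⟩
    have := hT.card
    omega

theorem goN1_sound (tab : BT) : Sound tab (goN1 tab) 1 := by
  intro X F s s' h T hT
  unfold goN1 at h
  split at h
  · exact absurd h (by simp)
  · rename_i ha
    by_cases hal : aliveT (tab.get (Nat.mod s 256)) T
    · exact ⟨_, hal⟩
    · have hex : ∃ e ∈ T, X.testBit e = false := by
        by_contra hcon
        push Not at hcon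
        exact hal (aliveT_of_empty ha (fun i hi => by simpa using hcon i hi))
      obtain ⟨e, heT, heX⟩ := hex
      have he : ∀ i ∈ T, X.testBit i = false → i = e := by
        intro i hi hX
        exact Finset.card_le_one.mp hT.card i (Finset.mem_filter.mpr ⟨hi, hX⟩) e
          (Finset.mem_filter.mpr ⟨heT, heX⟩)
      refine one_sound he 60 h ?_
      rw [testBit_diff, spoil_one ha hal he, hT.avoid e heT]
      rfl

theorem goN2_sound (tab : BT) : Sound tab (goN2 tab) 2 := by
  intro X F s s' h T hT
  unfold goN2 at h
  exact node_sound (r := 0) (goN1_sound tab) (goN0_sound tab)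
    (fun _ _ _ _ _ _ r' hr => by omega) _ h hT

theorem lift_sound {tab : BT} {g : ℕ → ℕ → ℕ → Option ℕ} {r : ℕ} (hg : Sound tab g r) :
    Sound tab (lift g) r := by
  intro X F s s' h T hT
  unfold lift at h
  split at h
  · exact absurd h (by simp)
  · split at h
    · exact absurd h (by simp)
    · rename_i h1
      exact hg _ _ _ _ h1 T hT

theorem up_sound {tab : BT} {g1 g2 g3 : ℕ → ℕ → List ℕ → Option (List ℕ)} {r : ℕ}
    (h1 : Sound tab g1 (r + 1)) (h2 : Sound tab g2 r) (h3 : SoundS tab g3 r) :
    Sound tab (up tab g1 g2 g3) (r + 2) := by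
  intro X F s s' h T hT
  unfold up at h
  split at h
  · exact absurd h (by simp)
  · exact node_sound h1 h2 h3 _ h hT

theorem goL5_sound (tab : BT) : Sound tab (goL5 tab) 5 := by
  have h0 : Sound tab (goL0 tab) 0 := lift_sound (goN0_sound tab)
  have h1 : Sound tab (goL1 tab) 1 := lift_sound (goN1_sound tab)
  have h2 : Sound tab (goL2 tab) 2 := lift_sound (goN2_sound tab)
  have h3 : Sound tab (goL3 tab) 3 := up_sound h2 h1 h0.toS
  have h4 : Sound tab (goL4 tab) 4 := up_sound h3 h2 h1.toS
  exact up_sound h4 h3 h2.toS

/-- Main soundness statement. -/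
theorem main (tab : BT) (L : List ℕ) (h : (goL5 tab 0 0 L).isSome = true) (T : Finset ℕ)
    (hlt : ∀ i ∈ T, i < 60) (hc : T.card ≤ 5) : Good tab T := by
  obtain ⟨s', hs'⟩ := Option.isSome_iff_exists.mp h
  refine goL5_sound tab 0 0 L s' hs' T ⟨hlt, ?_, ?_, ?_⟩
  · intro i hi; simp at hi
  · intro i _; simp
  · exact (Finset.card_filter_le _ _).trans hc

end Pool.Agent.Helper479.Bond.Check
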