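import Mathlib
import Pool.Agent.Helper479.Bond.Check

set_option autoImplicit false

namespace Pool.Agent.Helper479.Bond.Lower

open Check

def pop : ℕ → ℕ → ℕ
  | 0, _ => 0
  | n + 1, m => match Nat.testBit m n with
    | true => Nat.succ (pop n m)
    | false => pop n m

theorem pop_eq (n m : ℕ) : pop n m = ((Finset.range n).filter (fun i => m.testBit i = true)).card := by
  induction n with
  | zero => rfl
  | succ n ih =>
    unfold pop
    rw [Finset.range_add_one, Finset.filter_insert]
    split
    · rename_i h
      rw [if_pos h, Finset.card_insert_of_notMem (by simp), ih]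
    · rename_i h
      rw [if_neg (by simp [h]), ih]

/-- Closed neighbourhood mask read off a big number. -/
def cm (B x : ℕ) : ℕ := Nat.mod (Nat.shiftRight B (Nat.mul 30 x)) 1073741824

def tryc (B : ℕ) (g : ℕ → ℕ → Bool) (unc nx : ℕ) : ℕ → ℕ → Bool
  | 0, _ => true
  | c + 1, forb => match Nat.testBit (Nat.xor (Nat.lor nx forb) forb) c with
    | true => match g (Nat.xor (Nat.lor unc (cm B c)) (cm B c)) forb with
      | true => tryc B g unc nx c (Nat.lor forb (Nat.shiftLeft 1 c))
      | false => false
    | false => tryc B g unc nx c forb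

/-- `cov B k unc forb = true` certifies that `unc` cannot be covered by `k` neighbourhoods avoiding
`forb`. -/
def cov (B : ℕ) : ℕ → ℕ → ℕ → Bool
  | 0, unc, _ => match Nat.beq unc 0 with
    | true => false
    | false => true
  | k + 1, unc, forb => match Nat.ble (pop 30 unc) (Nat.mul 5 (Nat.succ k)) with
    | false => true
    | true => match Nat.testBit unc (Nat.log2 unc) with
      | false => false
      | true => tryc B (cov B k) unc (cm B (Nat.log2 unc)) 30 forb

structure Cov (B : ℕ) (D : Finset ℕ) (k unc forb : ℕ) : Prop where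
  lt : ∀ d ∈ D, d < 30
  card : D.card ≤ k
  avoid : ∀ d ∈ D, forb.testBit d = false
  ult : ∀ x, unc.testBit x = true → x < 30
  cov : ∀ x, unc.testBit x = true → ∃ d ∈ D, (cm B x).testBit d = true

theorem tryc_sound {B : ℕ} (hsym : ∀ x < 30, ∀ d < 30, (cm B x).testBit d = (cm B d).testBit x)
    {g : ℕ → ℕ → Bool} {k : ℕ}
    (hg : ∀ unc forb, g unc forb = true → ∀ D, Cov B D k unc forb → False)
    {unc nx : ℕ} (n : ℕ) {forb : ℕ} (h : tryc B g unc nx n forb = true) {D : Finset ℕ}
    (hD : Cov B D (k + 1) unc forb) : ∀ d ∈ D, d < n → nx.testBit d = false := by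
  induction n generalizing forb with
  | zero => intro d _ hd; omega
  | succ c ih =>
    unfold tryc at h
    split at h
    · rename_i hb
      split at h
      · rename_i hgc
        by_cases hc : c ∈ D
        · exfalso
          refine hg _ _ hgc (D.erase c) ⟨?_, ?_, ?_, ?_, ?_⟩
          · intro d hd; exact hD.lt d (Finset.mem_of_mem_erase hd)
          · rw [Finset.card_erase_of_mem hc]
            have := hD.card
            omega
          · intro d hd; exact hD.avoid d (Finset.mem_of_mem_erase hd)
          · intro x hx
            rw [testBit_diff, Bool.and_eq_true] at hx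
            exact hD.ult x hx.1
          · intro x hx
            rw [testBit_diff, Bool.and_eq_true] at hx
            obtain ⟨d, hd, hxd⟩ := hD.cov x hx.1
            refine ⟨d, Finset.mem_erase.mpr ⟨?_, hd⟩, hxd⟩
            rintro rfl
            rw [hsym x (hD.ult x hx.1) d (hD.lt d hd)] at hxd
            rw [hxd] at hx
            simp at hx
        · have hD' : Cov B D (k + 1) unc (Nat.lor forb (Nat.shiftLeft 1 c)) := by
            refine ⟨hD.lt, hD.card, ?_, hD.ult, hD.cov⟩
            intro d hd
            rw [testBit_lor, testBit_shift, hD.avoid d hd, Bool.false_or, decide_eq_false_iff_not]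
            rintro rfl
            exact hc hd
          intro d hd hdn
          rcases Nat.lt_succ_iff_lt_or_eq.mp hdn with h3 | h3
          · exact ih h hD' d hd h3
          · exact absurd (h3 ▸ hd) hc
      · exact absurd h (by simp)
    · rename_i hb
      intro d hd hdn
      rcases Nat.lt_succ_iff_lt_or_eq.mp hdn with h3 | h3
      · exact ih h hD d hd h3
      · rw [← h3, testBit_diff, hD.avoid d hd] at hb
        simpa using hb

theorem card_le {B : ℕ} (hsym : ∀ x < 30, ∀ d < 30, (cm B x).testBit d = (cm B d).testBit x)
    (h5 : ∀ d < 30, pop 30 (cm B d) ≤ 5) {D : Finset ℕ} {k unc forb : ℕ}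
    (hD : Cov B D k unc forb) : pop 30 unc ≤ 5 * k := by
  have h1 : (Finset.range 30).filter (fun i => unc.testBit i = true) ⊆
      D.biUnion (fun d => (Finset.range 30).filter (fun i => (cm B d).testBit i = true)) := by
    intro x hx
    rw [Finset.mem_filter] at hx
    obtain ⟨d, hd, hxd⟩ := hD.cov x hx.2
    rw [Finset.mem_biUnion]
    refine ⟨d, hd, ?_⟩
    rw [Finset.mem_filter]
    exact ⟨hx.1, by rw [← hsym x (hD.ult x hx.2) d (hD.lt d hd)]; exact hxd⟩
  rw [pop_eq]
  calc _ ≤ _ := Finset.card_le_card h1
    _ ≤ D.card * 5 := by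
      apply Finset.card_biUnion_le_card_mul
      intro d hd
      rw [← pop_eq]
      exact h5 d (hD.lt d hd)
    _ ≤ 5 * k := by have := hD.card; omega

theorem cov_sound {B : ℕ} (hsym : ∀ x < 30, ∀ d < 30, (cm B x).testBit d = (cm B d).testBit x)
    (h5 : ∀ d < 30, pop 30 (cm B d) ≤ 5) (k : ℕ) :
    ∀ unc forb, cov B k unc forb = true → ∀ D, Cov B D k unc forb → False := by
  induction k with
  | zero =>
    intro unc forb h D hD
    unfold cov at h
    split at h
    · exact absurd h (by simp)
    · rename_i hb
      have hne : unc ≠ 0 := Nat.ne_of_beq_eq_false hb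
      obtain ⟨i, hi⟩ := Nat.exists_testBit_of_ne_zero hne
      obtain ⟨d, hd, _⟩ := hD.cov i hi
      have := Finset.card_pos.mpr ⟨d, hd⟩
      have := hD.card
      omega
  | succ k ih =>
    intro unc forb h D hD
    unfold cov at h
    split at h
    · rename_i hb
      have h1 := card_le hsym h5 hD
      have h2 : Nat.ble (pop 30 unc) (Nat.mul 5 (Nat.succ k)) = true := Nat.ble_eq.mpr h1
      rw [h2] at hb
      exact absurd hb (by simp)
    · split at h
      · exact absurd h (by simp)
      · rename_i hx
        obtain ⟨d, hd, hxd⟩ := hD.cov _ hx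
        have := tryc_sound hsym ih 30 h hD d hd (hD.lt d hd)
        rw [this] at hxd
        exact absurd hxd (by simp)

end Pool.Agent.Helper479.Bond.Lower
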