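import Mathlib
import Pool.Agent.Helper479.Bond.Data

set_option autoImplicit false
set_option maxRecDepth 100000

namespace Pool.Agent.Helper479.Bond.Run

open Check Data

theorem chk : (goL5 tab 0 0 L).isSome = true := by decide +kernel

end Pool.Agent.Helper479.Bond.Run
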