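import Mathlib
import Pool.Agent.Helper479.Bond.VK

set_option autoImplicit false

namespace Pool.Agent.Helper479.Bond.Minor

open Set

variable {V : Type} (G : SimpleGraph V) (p : V → ℂ)

/-- The part of the straight-line drawing inside a vertex set. -/
def Dr (X : Set V) : Set ℂ := {z | ∃ u ∈ X, ∃ v ∈ X, G.Adj u v ∧ z ∈ segment ℝ (p u) (p v)}

theorem Dr_mono {X Y : Set V} (h : X ⊆ Y) : Dr G p X ⊆ Dr G p Y := by
  rintro z ⟨u, hu, v, hv, ha, hz⟩
  exact ⟨u, h hu, v, h hv, ha, hz⟩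

theorem seg_joined {u v : V} {X : Set V} (hu : u ∈ X) (hv : v ∈ X) (h : G.Adj u v) :
    JoinedIn (Dr G p X) (p u) (p v) := by
  have h1 : JoinedIn (segment ℝ (p u) (p v)) (p u) (p v) :=
    (convex_segment (p u) (p v)).isPathConnected ⟨_, left_mem_segment ℝ _ _⟩ |>.joinedIn _
      (left_mem_segment ℝ _ _) _ (right_mem_segment ℝ _ _)
  exact h1.mono (fun z hz => ⟨u, hu, v, hv, h, hz⟩)

/-- Two adjacent connected branch sets are joined inside the drawing of their union. -/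
theorem branch_joined {A B : Set V} (hA : (G.induce A).Connected) (hB : (G.induce B).Connected)
    (x : A) (y : B) (h : ∃ u ∈ A, ∃ v ∈ B, G.Adj u v) :
    JoinedIn (Dr G p (A ∪ B)) (p x.1) (p y.1) := by
  obtain ⟨u, hu, v, hv, huv⟩ := h
  have huv' := seg_joined G p (X := A ∪ B) (Or.inl hu) (Or.inr hv) huv
  have key : ∀ (C : Set V) (_ : C ⊆ A ∪ B) (_ : (G.induce C).Connected) (c c' : C)
      (_ : p c'.1 ∈ Dr G p (A ∪ B)), JoinedIn (Dr G p (A ∪ B)) (p c.1) (p c'.1) := by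
    intro C hC hcon c c' hc'
    obtain ⟨w⟩ := hcon.preconnected c' c
    have : ∀ {a b : C} (w : (G.induce C).Walk a b), p a.1 ∈ Dr G p (A ∪ B) →
        JoinedIn (Dr G p (A ∪ B)) (p a.1) (p b.1) := by
      intro a b w
      induction w with
      | nil => intro ha; exact JoinedIn.refl ha
      | @cons a b c hab _ ih =>
        intro ha
        have h1 : G.Adj a.1 b.1 := by simpa using hab
        have h2 := seg_joined G p (X := A ∪ B) (hC a.2) (hC b.2) h1
        exact h2.trans (ih h2.target_mem)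
    exact (this w hc').symm
  have h1 := key A subset_union_left hA x ⟨u, hu⟩ huv'.source_mem
  have h2 := key B subset_union_right hB y ⟨v, hv⟩ huv'.target_mem
  exact (h1.trans huv').trans h2.symm

/-- The drawing has no crossing between vertex-disjoint edges. -/
def Plane : Prop := ∀ u v w z : V, G.Adj u v → G.Adj w z → u ≠ w → u ≠ z → v ≠ w → v ≠ z →
  Disjoint (segment ℝ (p u) (p v)) (segment ℝ (p w) (p z))

variable {G p}

theorem Dr_disjoint (hp : Plane G p) {X Y : Set V} (h : Disjoint X Y) :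
    Disjoint (Dr G p X) (Dr G p Y) := by
  rw [Set.disjoint_left]
  rintro z ⟨u, hu, v, hv, ha, hz⟩ ⟨u', hu', v', hv', ha', hz'⟩
  have hne : ∀ a ∈ X, ∀ b ∈ Y, a ≠ b := fun a ha b hb hab => Set.disjoint_left.mp h ha (hab ▸ hb)
  exact Set.disjoint_left.mp (hp u v u' v' ha ha' (hne _ hu _ hu') (hne _ hu _ hv')
    (hne _ hv _ hu') (hne _ hv _ hv')) hz hz'

theorem no_K5 (hp : Plane G p) : ¬ ∃ f : Fin 5 → Set V,
    (∀ i, (G.induce (f i)).Connected) ∧
    (∀ i j, i ≠ j → Disjoint (f i) (f j)) ∧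
    (∀ i j, i ≠ j → ∃ u ∈ f i, ∃ v ∈ f j, G.Adj u v) := by
  rintro ⟨f, hc, hd, ha⟩
  have hne : ∀ i, Nonempty (f i) := fun i => (hc i).nonempty
  let x : ∀ i, f i := fun i => (hne i).some
  refine VK.k5_joined (fun i => p (x i).1) (fun a b => Dr G p (f a ∪ f b)) ?_ ?_
  · intro a b hab
    exact branch_joined G p (hc a) (hc b) (x a) (x b) (ha a b hab.ne)
  · intro a b c d _ _ h1 h2 h3 h4
    apply Dr_disjoint hp
    rw [Set.disjoint_union_left, Set.disjoint_union_right, Set.disjoint_union_right]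
    exact ⟨⟨hd _ _ h1, hd _ _ h2⟩, ⟨hd _ _ h3, hd _ _ h4⟩⟩

/-- Numbering of the two parts. -/
def num : Fin 6 → Fin 3 ⊕ Fin 3
  | 0 => Sum.inl 0
  | 1 => Sum.inl 1
  | 2 => Sum.inl 2
  | 3 => Sum.inr 0
  | 4 => Sum.inr 1
  | 5 => Sum.inr 2

theorem no_K33 (hp : Plane G p) : ¬ ∃ f : Fin 3 ⊕ Fin 3 → Set V,
    (∀ i, (G.induce (f i)).Connected) ∧
    (∀ i j, i ≠ j → Disjoint (f i) (f j)) ∧
    (∀ i j, (completeBipartiteGraph (Fin 3) (Fin 3)).Adj i j →
      ∃ u ∈ f i, ∃ v ∈ f j, G.Adj u v) := by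
  rintro ⟨f, hc, hd, ha⟩
  have hne : ∀ i, Nonempty (f i) := fun i => (hc i).nonempty
  let x : ∀ i, f i := fun i => (hne i).some
  have hinj : ∀ a b : Fin 6, a ≠ b → num a ≠ num b := by decide
  have hadj : ∀ a b : Fin 6, a.1 < 3 → 3 ≤ b.1 →
      (completeBipartiteGraph (Fin 3) (Fin 3)).Adj (num a) (num b) := by
    intro a b h1 h2
    have : ∀ a b : Fin 6, a.1 < 3 → 3 ≤ b.1 → (num a).isLeft = true ∧ (num b).isRight = true := by
      decide
    obtain ⟨e1, e2⟩ := this a b h1 h2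
    exact Or.inl ⟨e1, e2⟩
  refine VK.k33_joined (fun i => p (x (num i)).1) (fun a b => Dr G p (f (num a) ∪ f (num b))) ?_ ?_
  · intro a b h1 h2
    exact branch_joined G p (hc _) (hc _) (x _) (x _) (ha _ _ (hadj a b h1 h2))
  · intro a b c d h1 h2 h3 h4 h5 h6
    apply Dr_disjoint hp
    rw [Set.disjoint_union_left, Set.disjoint_union_right, Set.disjoint_union_right]
    refine ⟨⟨hd _ _ (hinj _ _ h5), hd _ _ (hinj _ _ ?_)⟩,
      ⟨hd _ _ (hinj _ _ ?_), hd _ _ (hinj _ _ h6)⟩⟩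
    · intro h; rw [h] at h1; omega
    · intro h; rw [h] at h2; omega

end Pool.Agent.Helper479.Bond.Minor
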