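import Mathlib
import Pool.Agent.Helper479.Bond.Minor

set_option autoImplicit false

namespace Pool.Agent.Helper479.Bond.Sep

open Set

def cross (P Q Z : ℂ) : ℝ := (Q.re - P.re) * (Z.im - P.im) - (Q.im - P.im) * (Z.re - P.re)

theorem cross_on {P Q z : ℂ} (h : z ∈ segment ℝ P Q) : cross P Q z = 0 := by
  obtain ⟨a, b, _, _, hab, rfl⟩ := h
  have ha : a = 1 - b := by linarith
  subst ha
  simp only [cross, Complex.add_re, Complex.add_im, Complex.smul_re, Complex.smul_im, smul_eq_mul]
  ring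

theorem cross_pos {P Q R S z : ℂ} (hR : 0 < cross P Q R) (hS : 0 < cross P Q S)
    (h : z ∈ segment ℝ R S) : 0 < cross P Q z := by
  obtain ⟨a, b, ha, hb, hab, rfl⟩ := h
  have e : cross P Q (a • R + b • S) = a * cross P Q R + b * cross P Q S := by
    have ha' : a = 1 - b := by linarith
    subst ha'
    simp only [cross, Complex.add_re, Complex.add_im, Complex.smul_re, Complex.smul_im,
      smul_eq_mul]
    ring
  rw [e]
  rcases ha.eq_or_lt with h0 | h0
  · have hb1 : b = 1 := by linarith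
    rw [← h0, hb1]; linarith
  · have := mul_pos h0 hR
    have := mul_nonneg hb hS.le
    linarith

theorem disj_of_pos {P Q R S : ℂ} (hR : 0 < cross P Q R) (hS : 0 < cross P Q S) :
    Disjoint (segment ℝ P Q) (segment ℝ R S) := by
  rw [Set.disjoint_left]
  intro z h1 h2
  have := cross_pos hR hS h2
  rw [cross_on h1] at this
  exact lt_irrefl _ this

/-- Integer point to complex number. -/
noncomputable def pt (c : ℕ × ℕ) : ℂ := ⟨(c.1 : ℝ), (c.2 : ℝ)⟩

/-- Orientation test with natural number coordinates. -/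
def posB (P Q R : ℕ × ℕ) : Bool :=
  Nat.blt (Q.1 * P.2 + R.1 * Q.2 + P.1 * R.2) (Q.1 * R.2 + R.1 * P.2 + P.1 * Q.2)

theorem posB_spec {P Q R : ℕ × ℕ} (h : posB P Q R = true) : 0 < cross (pt P) (pt Q) (pt R) := by
  have h1 : Q.1 * P.2 + R.1 * Q.2 + P.1 * R.2 < Q.1 * R.2 + R.1 * P.2 + P.1 * Q.2 := by
    unfold posB Nat.blt at h
    have := Nat.le_of_ble_eq_true h
    omega
  have h2 : ((Q.1 * P.2 + R.1 * Q.2 + P.1 * R.2 : ℕ) : ℝ) <
      ((Q.1 * R.2 + R.1 * P.2 + P.1 * Q.2 : ℕ) : ℝ) := by exact_mod_cast h1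
  push_cast at h2
  simp only [cross, pt]
  nlinarith

/-- Separation test for two segments. -/
def sepB (P Q R S : ℕ × ℕ) : Bool :=
  (posB P Q R && posB P Q S) || (posB Q P R && posB Q P S) ||
  (posB R S P && posB R S Q) || (posB S R P && posB S R Q)

theorem sepB_spec {P Q R S : ℕ × ℕ} (h : sepB P Q R S = true) :
    Disjoint (segment ℝ (pt P) (pt Q)) (segment ℝ (pt R) (pt S)) := by
  simp only [sepB, Bool.or_eq_true, Bool.and_eq_true] at h
  rcases h with ((h | h) | h) | h
  · exact disj_of_pos (posB_spec h.1) (posB_spec h.2)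
  · rw [segment_symm ℝ (pt P) (pt Q)]
    exact disj_of_pos (posB_spec h.1) (posB_spec h.2)
  · exact (disj_of_pos (posB_spec h.1) (posB_spec h.2)).symm
  · rw [segment_symm ℝ (pt R) (pt S)]
    exact (disj_of_pos (posB_spec h.1) (posB_spec h.2)).symm

end Pool.Agent.Helper479.Bond.Sep
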