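import Mathlib
import Pool.Agent.Helper479.Bond.Run
import Pool.Agent.Helper479.Bond.Lower
import Pool.Agent.Helper479.Bond.Sep

set_option autoImplicit false
set_option maxRecDepth 100000

namespace Pool.Agent.Helper479.Bond.Final

open Check Data Lower

/-- The graph on 30 vertices. -/
def G : SimpleGraph (Fin 30) where
  Adj u v := u ≠ v ∧ (cm B u.1).testBit v.1 = true
  symm := by
    constructor
    intro u v h
    have hs : ∀ u v : Fin 30, (cm B u.1).testBit v.1 = (cm B v.1).testBit u.1 := by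
      decide +kernel
    exact ⟨h.1.symm, by rw [← hs]; exact h.2⟩
  loopless := ⟨fun u h => h.1 rfl⟩

instance : DecidableRel G.Adj := fun u v =>
  inferInstanceAs (Decidable (u ≠ v ∧ (cm B u.1).testBit v.1 = true))

theorem hsym : ∀ x < 30, ∀ d < 30, (cm B x).testBit d = (cm B d).testBit x := by
  decide +kernel

theorem h5 : ∀ d < 30, pop 30 (cm B d) ≤ 5 := by decide +kernel

theorem hself : ∀ x < 30, (cm B x).testBit x = true := by decide +kernel

theorem covchk : cov B 7 1073741823 0 = true := by decide +kernel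

theorem nonempty : G.edgeSet.Nonempty := by
  have h : ∃ v : Fin 30, G.Adj 0 v := by decide +kernel
  obtain ⟨v, hv⟩ := h
  exact ⟨s(0, v), hv⟩

theorem maxDeg : G.maxDegree ≤ 4 := by
  apply SimpleGraph.maxDegree_le_of_forall_degree_le
  have h : ∀ v : Fin 30, G.degree v ≤ 4 := by decide +kernel
  exact h

/-- Every dominating set has at least 8 vertices. -/
theorem lower (D : Finset (Fin 30)) (hD : ∀ v, v ∈ D ∨ ∃ u ∈ D, G.Adj u v) : 8 ≤ D.card := by
  by_contra hlt
  refine cov_sound hsym h5 7 _ _ covchk (D.map Fin.valEmbedding) ⟨?_, ?_, ?_, ?_, ?_⟩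
  · intro d hd
    obtain ⟨x, _, rfl⟩ := Finset.mem_map.mp hd
    exact x.2
  · rw [Finset.card_map]; omega
  · intro d _; simp
  · intro x hx
    by_contra hc
    have : (1073741823 : ℕ).testBit x = false := by
      apply Nat.testBit_eq_false_of_lt
      calc 1073741823 < 2 ^ 30 := by norm_num
        _ ≤ 2 ^ x := Nat.pow_le_pow_right (by norm_num) (by omega)
    rw [this] at hx
    exact absurd hx (by simp)
  · intro x hx
    have hx30 : x < 30 := by
      by_contra hc
      have : (1073741823 : ℕ).testBit x = false := by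
        apply Nat.testBit_eq_false_of_lt
        calc 1073741823 < 2 ^ 30 := by norm_num
          _ ≤ 2 ^ x := Nat.pow_le_pow_right (by norm_num) (by omega)
      rw [this] at hx
      exact absurd hx (by simp)
    rcases hD ⟨x, hx30⟩ with h | ⟨u, hu, h⟩
    · exact ⟨x, Finset.mem_map.mpr ⟨⟨x, hx30⟩, h, rfl⟩, hself x hx30⟩
    · exact ⟨u.1, Finset.mem_map.mpr ⟨u, hu, rfl⟩, by rw [hsym x hx30 u.1 u.2]; exact h.2⟩

/-! ### Robust dominating sets -/

def inc (u : ℕ) : List (ℕ × ℕ) := incL.getD u []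

def mask (D : ℕ) : List (ℕ × ℕ) → ℕ
  | [] => 0
  | p :: l => match Nat.testBit D p.1 with
    | true => Nat.lor (Nat.shiftLeft 1 p.2) (mask D l)
    | false => mask D l

theorem mask_spec {D : ℕ} {l : List (ℕ × ℕ)} {i : ℕ} (h : (mask D l).testBit i = true) :
    ∃ p ∈ l, p.2 = i ∧ D.testBit p.1 = true := by
  induction l with
  | nil => simp [mask] at h
  | cons p l ih =>
    unfold mask at h
    split at h
    · rename_i hb
      rw [testBit_lor, testBit_shift, Bool.or_eq_true, decide_eq_true_eq] at h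
      rcases h with h | h
      · exact ⟨p, List.mem_cons_self, h.symm, hb⟩
      · obtain ⟨q, hq, h1⟩ := ih h
        exact ⟨q, List.mem_cons_of_mem _ hq, h1⟩
    · obtain ⟨q, hq, h1⟩ := ih h
      exact ⟨q, List.mem_cons_of_mem _ hq, h1⟩

def validU (d : DD) (u : ℕ) : Bool :=
  Nat.testBit d.D u || !(Nat.beq (Nat.land (mask d.D (inc u)) d.s1) 0) ||
    d.qs.contains (mask d.D (inc u))

def valid (d : DD) : Bool := Nat.beq (pop 30 d.D) 8 && (List.range 30).all (validU d)

theorem tab_valid : tab.all valid = true := by decide +kernel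

def ends (e : ℕ) : ℕ × ℕ := EL.getD e (0, 0)

theorem inc_spec : ∀ u : Fin 30, ∀ p ∈ inc u.1, p.2 < 60 ∧ p.1 < 30 ∧ p.1 ≠ u.1 ∧
    (ends p.2 = (u.1, p.1) ∨ ends p.2 = (p.1, u.1)) ∧ (cm B u.1).testBit p.1 = true := by
  decide +kernel

theorem ends_lt : ∀ e < 60, (ends e).1 < (ends e).2 ∧ (ends e).2 < 30 := by decide +kernel

theorem ends_inj : ∀ e < 60, ∀ f < 60, (ends e).1 = (ends f).1 → (ends e).2 = (ends f).2 →
    e = f := by decide +kernel

def edge (e : ℕ) : Sym2 (Fin 30) :=
  s(Fin.ofNat 30 (ends e).1, Fin.ofNat 30 (ends e).2)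

theorem edge_inj {e f : ℕ} (he : e < 60) (hf : f < 60) (h : edge e = edge f) : e = f := by
  obtain ⟨a1, a2⟩ := ends_lt e he
  obtain ⟨b1, b2⟩ := ends_lt f hf
  unfold edge at h
  rw [Sym2.eq_iff] at h
  simp only [Fin.ext_iff, Fin.val_ofNat] at h
  rw [Nat.mod_eq_of_lt (by omega), Nat.mod_eq_of_lt (by omega), Nat.mod_eq_of_lt (by omega),
    Nat.mod_eq_of_lt (by omega)] at h
  rcases h with ⟨h1, h2⟩ | ⟨h1, h2⟩
  · exact ends_inj e he f hf h1 h2
  · omega

theorem edge_inc (u : Fin 30) {p : ℕ × ℕ} (hp : p ∈ inc u.1) (h30 : p.1 < 30) :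
    edge p.2 = s(u, ⟨p.1, h30⟩) := by
  obtain ⟨_, _, _, h, _⟩ := inc_spec u p hp
  unfold edge
  have e1 : Fin.ofNat 30 u.1 = u := by
    apply Fin.ext
    rw [Fin.val_ofNat, Nat.mod_eq_of_lt u.2]
  have e2 : Fin.ofNat 30 p.1 = ⟨p.1, h30⟩ := by
    apply Fin.ext
    rw [Fin.val_ofNat, Nat.mod_eq_of_lt h30]
  rcases h with h | h
  · rw [h]; simp only; rw [e1, e2]
  · rw [h]; simp only; rw [e1, e2, Sym2.eq_swap]

theorem exists_dom (S : Finset (Sym2 (Fin 30))) (hS : S.card ≤ 5) :
    ∃ D : Finset (Fin 30), D.card = 8 ∧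
      ∀ v, v ∈ D ∨ ∃ u ∈ D, (G.deleteEdges (↑S : Set (Sym2 (Fin 30)))).Adj u v := by
  classical
  let T : Finset ℕ := (Finset.range 60).filter (fun e => edge e ∈ S)
  have hT : T.card ≤ 5 := by
    refine le_trans (Finset.card_le_card_of_injOn edge ?_ ?_) hS
    · intro e he
      exact (Finset.mem_filter.mp he).2
    · intro e he f hf h
      have h1 := Finset.mem_range.mp (Finset.mem_filter.mp (Finset.mem_coe.mp he)).1
      have h2 := Finset.mem_range.mp (Finset.mem_filter.mp (Finset.mem_coe.mp hf)).1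
      exact edge_inj h1 h2 h
  obtain ⟨i, hal⟩ := Check.main tab L Run.chk T
    (fun i hi => Finset.mem_range.mp (Finset.mem_filter.mp hi).1) hT
  have hv := BT.all_get valid tab tab_valid i
  generalize tab.get i = d at hal hv
  unfold valid at hv
  rw [Bool.and_eq_true] at hv
  obtain ⟨hpop, hval⟩ := hv
  rw [List.all_eq_true] at hval
  refine ⟨((Finset.range 30).filter (fun i => d.D.testBit i = true)).attachFin
    (fun m hm => Finset.mem_range.mp (Finset.mem_filter.mp hm).1), ?_, ?_⟩
  · rw [Finset.card_attachFin, ← pop_eq]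
    exact Nat.eq_of_beq_eq_true hpop
  · intro v
    have h1 := hval v.1 (List.mem_range.mpr v.2)
    unfold validU at h1
    rw [Bool.or_eq_true, Bool.or_eq_true] at h1
    have key : (∃ e, (mask d.D (inc v.1)).testBit e = true ∧ e ∉ T) →
        (∃ u ∈ ((Finset.range 30).filter (fun i => d.D.testBit i = true)).attachFin
          (fun m hm => Finset.mem_range.mp (Finset.mem_filter.mp hm).1),
          (G.deleteEdges (↑S : Set (Sym2 (Fin 30)))).Adj u v) := by
      rintro ⟨e, he, heT⟩
      obtain ⟨p, hp, hpe, hpD⟩ := mask_spec he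
      obtain ⟨q1, q2, q3, q4, q5⟩ := inc_spec v p hp
      refine ⟨⟨p.1, q2⟩, ?_, ?_⟩
      · rw [Finset.mem_attachFin, Finset.mem_filter, Finset.mem_range]
        exact ⟨q2, hpD⟩
      · rw [SimpleGraph.deleteEdges_adj]
        refine ⟨⟨?_, ?_⟩, ?_⟩
        · intro h
          exact q3 (congrArg Fin.val h)
        · rw [hsym p.1 q2 v.1 v.2]; exact q5
        · intro hmem
          apply heT
          rw [Finset.mem_filter, Finset.mem_range, ← hpe]
          refine ⟨q1, ?_⟩
          rw [edge_inc v hp q2, Sym2.eq_swap]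
          exact hmem
    rcases h1 with (h1 | h1) | h1
    · left
      rw [Finset.mem_attachFin, Finset.mem_filter, Finset.mem_range]
      exact ⟨v.2, h1⟩
    · right
      apply key
      have h2 : Nat.beq (Nat.land (mask d.D (inc v.1)) d.s1) 0 = false := by
        simpa using h1
      obtain ⟨e, he, hs⟩ := beq_land_nonzero h2
      refine ⟨e, he, fun heT => ?_⟩
      rw [hal.1 e heT] at hs
      exact absurd hs (by simp)
    · right
      apply key
      have h2 : mask d.D (inc v.1) ∈ d.qs := by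
        simpa using h1
      exact hal.2 _ h2

/-! ### Planarity -/

def pc (u : ℕ) : ℕ × ℕ := pts.getD u (0, 0)

def shared (e f : ℕ × ℕ) : Bool :=
  Nat.beq e.1 f.1 || Nat.beq e.1 f.2 || Nat.beq e.2 f.1 || Nat.beq e.2 f.2

def planeB : Bool :=
  EL.all (fun e => EL.all (fun f => shared e f || Sep.sepB (pc e.1) (pc e.2) (pc f.1) (pc f.2)))

theorem planeB_true : planeB = true := by decide +kernel

def memB (u v : ℕ) : Bool := EL.any (fun e => Nat.beq e.1 u && Nat.beq e.2 v)

theorem adj_memB : ∀ u v : Fin 30, (u ≠ v ∧ (cm B u.1).testBit v.1 = true) →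
    (memB u.1 v.1 = true ∨ memB v.1 u.1 = true) := by decide +kernel

theorem mem_EL {u v : Fin 30} (h : G.Adj u v) : (u.1, v.1) ∈ EL ∨ (v.1, u.1) ∈ EL := by
  have key : ∀ a b : ℕ, memB a b = true → (a, b) ∈ EL := by
    intro a b hab
    unfold memB at hab
    rw [List.any_eq_true] at hab
    obtain ⟨e, he, h1⟩ := hab
    rw [Bool.and_eq_true] at h1
    have e1 : e.1 = a := Nat.eq_of_beq_eq_true h1.1
    have e2 : e.2 = b := Nat.eq_of_beq_eq_true h1.2
    rw [← e1, ← e2]
    exact he
  rcases adj_memB u v h with h1 | h1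
  · exact Or.inl (key _ _ h1)
  · exact Or.inr (key _ _ h1)

noncomputable def pos (v : Fin 30) : ℂ := Sep.pt (pc v.1)

theorem plane : Minor.Plane G pos := by
  have hb := planeB_true
  unfold planeB at hb
  rw [List.all_eq_true] at hb
  have key : ∀ a b c d : Fin 30, (a.1, b.1) ∈ EL → (c.1, d.1) ∈ EL → a ≠ c → a ≠ d → b ≠ c →
      b ≠ d → Disjoint (segment ℝ (pos a) (pos b)) (segment ℝ (pos c) (pos d)) := by
    intro a b c d hab hcd h1 h2 h3 h4
    have h := hb _ hab
    rw [List.all_eq_true] at h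
    have h' := h _ hcd
    rw [Bool.or_eq_true] at h'
    rcases h' with h' | h'
    · exfalso
      unfold shared at h'
      simp only [Bool.or_eq_true] at h'
      rcases h' with ((h' | h') | h') | h'
      · exact h1 (Fin.ext (Nat.eq_of_beq_eq_true h'))
      · exact h2 (Fin.ext (Nat.eq_of_beq_eq_true h'))
      · exact h3 (Fin.ext (Nat.eq_of_beq_eq_true h'))
      · exact h4 (Fin.ext (Nat.eq_of_beq_eq_true h'))
    · exact Sep.sepB_spec h'
  intro u v w z huv hwz h1 h2 h3 h4
  rcases mem_EL huv with a | a <;> rcases mem_EL hwz with b | b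
  · exact key u v w z a b h1 h2 h3 h4
  · rw [segment_symm ℝ (pos w) (pos z)]
    exact key u v z w a b h2 h1 h4 h3
  · rw [segment_symm ℝ (pos u) (pos v)]
    exact key v u w z a b h3 h4 h1 h2
  · rw [segment_symm ℝ (pos u) (pos v), segment_symm ℝ (pos w) (pos z)]
    exact key v u z w a b h4 h3 h2 h1

end Pool.Agent.Helper479.Bond.Final
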